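import Mathlib

/-!
# Closed families of walks (complete)

`Fam n T`: a family of walks on `T ⊆ ZMod n`. A walk is a start vertex `v` and a list of steps; it is closed under taking
factors, has no zero step, and satisfies rule R: two consecutive steps `c, c'` of an alive walk may be interchanged, or replaced by the
one step `c + c'` (at least one of the two results is alive).
-/

namespace Pool.Agent.KArc

/-- A closed family of walks on `T`. -/
structure Fam (n : ℕ) (T : Set (ZMod n)) where
  X : ZMod n → List (ZMod n) → Prop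
  mem : ∀ {v w}, X v w → v ∈ T
  nz : ∀ {v w}, X v w → (0 : ZMod n) ∉ w
  pre : ∀ {v u w}, X v (u ++ w) → X v u
  suf : ∀ {v u w}, X v (u ++ w) → X (v + u.sum) w
  R : ∀ {v u c c' w}, X v (u ++ c :: c' :: w) →
    X v (u ++ c' :: c :: w) ∨ X v (u ++ (c + c') :: w)

/-- Alive walks on `T` have fewer than `k` steps. -/
def NoLen {n : ℕ} (T : Set (ZMod n)) (k : ℕ) : Prop :=
  ∀ F : Fam n T, ∀ v w, F.X v w → w.length < k

/-- No alive walk on `T` consists of `j` (nonempty) closed walks at `v`. -/
def NoLoops {n : ℕ} (T : Set (ZMod n)) (v : ZMod n) (j : ℕ) : Prop :=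
  ∀ F : Fam n T, ∀ Ls : List (List (ZMod n)), Ls.length = j →
    (∀ l ∈ Ls, l ≠ [] ∧ l.sum = 0) → ¬ F.X v Ls.flatten

/-- The arc of all residues with representative at least `d`. -/
def arc (n d : ℕ) : Set (ZMod n) := {t | d ≤ t.val}

end Pool.Agent.KArc
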