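import Pool.Agent.KArc.Defs

/-!
# Graded Lie rings and closed families of walks
-/

namespace Pool.Agent.KArc

private def br {L : Type*} [LieRing L] (y : L) (xs : List L) : L :=
  xs.foldl (fun a x => ⁅a, x⁆) y

private theorem br_nil {L : Type*} [LieRing L] (y : L) : br y [] = y := rfl

private theorem br_cons {L : Type*} [LieRing L] (y x : L) (xs : List L) :
    br y (x :: xs) = br ⁅y, x⁆ xs := rfl

private theorem br_append {L : Type*} [LieRing L] (y : L) (xs ys : List L) :
    br y (xs ++ ys) = br (br y xs) ys := by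
  unfold br
  rw [List.foldl_append]

private theorem br_zero {L : Type*} [LieRing L] (xs : List L) : br (0 : L) xs = 0 := by
  induction xs with
  | nil => rfl
  | cons x xs ih => rw [br_cons, zero_lie, ih]

private theorem br_add {L : Type*} [LieRing L] (xs : List L) (y z : L) :
    br (y + z) xs = br y xs + br z xs := by
  induction xs generalizing y z with
  | nil => rfl
  | cons x xs ih => rw [br_cons, br_cons, br_cons, add_lie, ih]

private theorem br_mem {n : ℕ} {L : Type*} [LieRing L] {X : ZMod n → AddSubgroup L}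
    (hgr : ∀ i j, ∀ x ∈ X i, ∀ y ∈ X j, ⁅x, y⁆ ∈ X (i + j)) {w : List (ZMod n)} {xs : List L}
    (h : List.Forall₂ (fun c x => x ∈ X c) w xs) :
    ∀ (v : ZMod n) (y : L), y ∈ X v → br y xs ∈ X (v + w.sum) := by
  induction h with
  | nil =>
    intro v y hy
    rw [List.sum_nil, add_zero]
    exact hy
  | cons hx _ ih =>
    intro v y hy
    rw [br_cons, List.sum_cons, ← add_assoc]
    exact ih _ _ (hgr _ _ _ hy _ hx)

private theorem br_nz {n : ℕ} {L : Type*} [LieRing L] {X : ZMod n → AddSubgroup L}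
    (h0 : X 0 = ⊥) {w : List (ZMod n)} {xs : List L}
    (h : List.Forall₂ (fun c x => x ∈ X c) w xs) (hw : (0 : ZMod n) ∈ w) :
    ∀ y : L, br y xs = 0 := by
  induction h with
  | nil => exact absurd hw (List.not_mem_nil)
  | @cons c x w' xs' hx _ ih =>
    intro y
    rw [br_cons]
    rcases List.mem_cons.1 hw with h1 | h1
    · have hx' : x ∈ X c := hx
      rw [← h1, h0, AddSubgroup.mem_bot] at hx'
      rw [hx', lie_zero, br_zero]
    · exact ih h1 _

private theorem split {α β : Type*} {R : α → β → Prop} {u w : List α} :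
    ∀ {xs : List β}, List.Forall₂ R (u ++ w) xs →
      ∃ xs₁ xs₂, xs = xs₁ ++ xs₂ ∧ List.Forall₂ R u xs₁ ∧ List.Forall₂ R w xs₂ := by
  induction u with
  | nil =>
    intro xs h
    exact ⟨[], xs, rfl, List.Forall₂.nil, h⟩
  | cons a u ih =>
    intro xs h
    rw [List.cons_append] at h
    cases h with
    | cons hab h' =>
      obtain ⟨xs₁, xs₂, rfl, h1, h2⟩ := ih h'
      exact ⟨_ :: xs₁, xs₂, rfl, List.Forall₂.cons hab h1, h2⟩

private theorem join {α β : Type*} {R : α → β → Prop} {u w : List α} {xs ys : List β}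
    (h1 : List.Forall₂ R u xs) (h2 : List.Forall₂ R w ys) :
    List.Forall₂ R (u ++ w) (xs ++ ys) := by
  induction h1 with
  | nil => exact h2
  | cons hab _ ih => exact List.Forall₂.cons hab ih

/-- The family of the nonzero products. -/
private def lieFam {n : ℕ} {T : Set (ZMod n)} {L : Type*} [LieRing L]
    {X : ZMod n → AddSubgroup L}
    (hgr : ∀ i j, ∀ x ∈ X i, ∀ y ∈ X j, ⁅x, y⁆ ∈ X (i + j)) (h0 : X 0 = ⊥)
    (hoff : ∀ i, i ∉ T → X i = ⊥) : Fam n T where
  X v w := ∃ y ∈ X v, ∃ xs : List L, List.Forall₂ (fun c x => x ∈ X c) w xs ∧ br y xs ≠ 0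
  mem := by
    rintro v w ⟨y, hy, xs, hxs, hne⟩
    by_contra hv
    rw [hoff v hv, AddSubgroup.mem_bot] at hy
    rw [hy, br_zero] at hne
    exact hne rfl
  nz := by
    rintro v w ⟨y, hy, xs, hxs, hne⟩ hw
    exact hne (br_nz h0 hxs hw y)
  pre := by
    rintro v u w ⟨y, hy, xs, hxs, hne⟩
    obtain ⟨xs₁, xs₂, rfl, h1, h2⟩ := split hxs
    refine ⟨y, hy, xs₁, h1, ?_⟩
    intro h
    rw [br_append, h, br_zero] at hne
    exact hne rfl
  suf := by
    rintro v u w ⟨y, hy, xs, hxs, hne⟩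
    obtain ⟨xs₁, xs₂, rfl, h1, h2⟩ := split hxs
    exact ⟨br y xs₁, br_mem hgr h1 v y hy, xs₂, h2, by rwa [br_append] at hne⟩
  R := by
    rintro v u c c' w ⟨y, hy, xs, hxs, hne⟩
    obtain ⟨xs₁, xs₂, rfl, h1, h2⟩ := split hxs
    cases h2 with
    | @cons _ x _ _ hx h3 =>
      cases h3 with
      | @cons _ x' _ ys hx' h4 =>
        rw [br_append, br_cons, br_cons] at hne
        have key : ⁅⁅br y xs₁, x⁆, x'⁆ = ⁅⁅br y xs₁, x'⁆, x⁆ + ⁅br y xs₁, ⁅x, x'⁆⁆ := by
          rw [leibniz_lie, ← lie_skew x ⁅br y xs₁, x'⁆]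
          abel
        rw [key, br_add] at hne
        by_cases hA : br ⁅⁅br y xs₁, x'⁆, x⁆ ys = 0
        · right
          rw [hA, zero_add] at hne
          refine ⟨y, hy, xs₁ ++ ⁅x, x'⁆ :: ys,
            join h1 (List.Forall₂.cons (hgr _ _ _ hx _ hx') h4), ?_⟩
          rw [br_append, br_cons]
          exact hne
        · left
          refine ⟨y, hy, xs₁ ++ x' :: x :: ys,
            join h1 (List.Forall₂.cons hx' (List.Forall₂.cons hx h4)), ?_⟩
          rw [br_append, br_cons, br_cons]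
          exact hA

private def prods {n : ℕ} {L : Type*} [LieRing L] (X : ZMod n → AddSubgroup L) (k : ℕ) :
    Set L :=
  {z | ∃ v : ZMod n, ∃ y ∈ X v, ∃ (w : List (ZMod n)) (xs : List L),
    List.Forall₂ (fun c x => x ∈ X c) w xs ∧ w.length = k ∧ z = br y xs}

private theorem prods_lie {n : ℕ} {L : Type*} [LieRing L] {X : ZMod n → AddSubgroup L}
    (htop : ⨆ i, X i = ⊤) {k : ℕ} (a b : L) (hb : b ∈ AddSubgroup.closure (prods X k)) :
    ⁅a, b⁆ ∈ AddSubgroup.closure (prods X (k + 1)) := by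
  induction hb using AddSubgroup.closure_induction with
  | mem b hb =>
    obtain ⟨v, y, hy, w, xs, hxs, hw, rfl⟩ := hb
    have ha : a ∈ ⨆ i, X i := by rw [htop]; trivial
    induction ha using AddSubgroup.iSup_induction' with
    | hp c a ha =>
      rw [← lie_skew]
      apply neg_mem
      apply AddSubgroup.subset_closure
      refine ⟨v, y, hy, w ++ [c], xs ++ [a],
        join hxs (List.Forall₂.cons ha List.Forall₂.nil), ?_, ?_⟩
      · rw [List.length_append, hw]
        rfl
      · rw [br_append, br_cons, br_nil]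
    | h1 =>
      rw [zero_lie]
      exact zero_mem _
    | hadd a a' _ _ h h' =>
      rw [add_lie]
      exact add_mem h h'
  | zero =>
    rw [lie_zero]
    exact zero_mem _
  | add b b' _ _ h h' =>
    rw [lie_add]
    exact add_mem h h'
  | neg b _ h =>
    rw [lie_neg]
    exact neg_mem h

private theorem lcs_prods {n : ℕ} {L : Type*} [LieRing L] {X : ZMod n → AddSubgroup L}
    (htop : ⨆ i, X i = ⊤) (k : ℕ) :
    ∀ x ∈ LieModule.lowerCentralSeries ℤ L L k, x ∈ AddSubgroup.closure (prods X k) := by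
  induction k with
  | zero =>
    intro x _
    have hx : x ∈ ⨆ i, X i := by rw [htop]; trivial
    have hle : (⨆ i, X i) ≤ AddSubgroup.closure (prods X 0) := by
      refine iSup_le fun i y hy => AddSubgroup.subset_closure ?_
      exact ⟨i, y, hy, [], [], List.Forall₂.nil, rfl, rfl⟩
    exact hle hx
  | succ k ih =>
    intro x hx
    rw [LieModule.lowerCentralSeries_succ] at hx
    have hx' : x ∈ (⁅(⊤ : LieIdeal ℤ L), LieModule.lowerCentralSeries ℤ L L k⁆ :
        LieSubmodule ℤ L L).toSubmodule := hx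
    rw [LieSubmodule.lieIdeal_oper_eq_linear_span'] at hx'
    have hle : Submodule.span ℤ {m | ∃ x ∈ (⊤ : LieIdeal ℤ L),
        ∃ n ∈ LieModule.lowerCentralSeries ℤ L L k, ⁅x, n⁆ = m} ≤
        AddSubgroup.toIntSubmodule (AddSubgroup.closure (prods X (k + 1))) := by
      refine Submodule.span_le.2 ?_
      rintro _ ⟨a, _, b, hb, rfl⟩
      exact prods_lie htop a b (ih b hb)
    exact hle hx'

theorem lie_class {n : ℕ} {T : Set (ZMod n)} {k : ℕ} (hk : NoLen T k)
    {L : Type*} [LieRing L] {𝓛 : ZMod n → AddSubgroup L} (htop : ⨆ i, 𝓛 i = ⊤)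
    (hgr : ∀ i j, ∀ x ∈ 𝓛 i, ∀ y ∈ 𝓛 j, ⁅x, y⁆ ∈ 𝓛 (i + j)) (h0 : 𝓛 0 = ⊥)
    (hoff : ∀ i, i ∉ T → 𝓛 i = ⊥) : LieModule.lowerCentralSeries ℤ L L k = ⊥ := by
  refine (LieSubmodule.eq_bot_iff _).2 ?_
  intro x hx
  have h1 := lcs_prods htop k x hx
  have h2 : AddSubgroup.closure (prods 𝓛 k) ≤ ⊥ := by
    rw [AddSubgroup.closure_le]
    rintro z ⟨v, y, hy, w, xs, hxs, hw, rfl⟩
    by_contra hne
    have hne' : br y xs ≠ 0 := fun h => hne h
    have h3 := hk (lieFam hgr h0 hoff) v w ⟨y, hy, xs, hxs, hne'⟩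
    omega
  exact h2 h1

private theorem lcs_lie (L : Type*) [LieRing L] (i : ℕ) :
    ∀ j : ℕ, ∀ x ∈ LieModule.lowerCentralSeries ℤ L L i,
      ∀ y ∈ LieModule.lowerCentralSeries ℤ L L j,
        ⁅x, y⁆ ∈ LieModule.lowerCentralSeries ℤ L L (i + j + 1) := by
  induction i with
  | zero =>
    intro j x _ y hy
    rw [Nat.zero_add, LieModule.lowerCentralSeries_succ]
    exact LieSubmodule.lie_mem_lie (LieSubmodule.mem_top x) hy
  | succ i ih =>
    intro j x hx y hy
    rw [LieModule.lowerCentralSeries_succ] at hx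
    have hx' : x ∈ (⁅(⊤ : LieIdeal ℤ L), LieModule.lowerCentralSeries ℤ L L i⁆ :
        LieSubmodule ℤ L L).toSubmodule := hx
    rw [LieSubmodule.lieIdeal_oper_eq_linear_span'] at hx'
    clear hx
    induction hx' using Submodule.span_induction with
    | mem z hz =>
      obtain ⟨a, _, b, hb, rfl⟩ := hz
      have h1 : ⁅a, ⁅b, y⁆⁆ ∈ LieModule.lowerCentralSeries ℤ L L (i + 1 + j + 1) := by
        have h2 := ih j b hb y hy
        have h3 := LieSubmodule.lie_mem_lie (LieSubmodule.mem_top a) h2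
        rw [← LieModule.lowerCentralSeries_succ] at h3
        have e : i + j + 1 + 1 = i + 1 + j + 1 := by omega
        rw [← e]
        exact h3
      have h4 : ⁅b, ⁅a, y⁆⁆ ∈ LieModule.lowerCentralSeries ℤ L L (i + 1 + j + 1) := by
        have h2 := LieSubmodule.lie_mem_lie (LieSubmodule.mem_top a) hy
        rw [← LieModule.lowerCentralSeries_succ] at h2
        have h3 := ih (j + 1) b hb _ h2
        have e : i + (j + 1) + 1 = i + 1 + j + 1 := by omega
        rw [← e]
        exact h3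
      have e : ⁅⁅a, b⁆, y⁆ = ⁅a, ⁅b, y⁆⁆ - ⁅b, ⁅a, y⁆⁆ := by
        rw [leibniz_lie a b y]
        abel
      rw [e]
      exact sub_mem h1 h4
    | zero =>
      rw [zero_lie]
      exact zero_mem _
    | add z z' _ _ h h' =>
      rw [add_lie]
      exact add_mem h h'
    | smul c z _ h =>
      rw [zsmul_lie]
      exact zsmul_mem h c

theorem derived_le (L : Type*) [LieRing L] (s : ℕ) :
    LieAlgebra.derivedSeries ℤ L s ≤ LieModule.lowerCentralSeries ℤ L L (2 ^ s - 1) := by
  induction s with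
  | zero =>
    intro x _
    rw [pow_zero, Nat.sub_self, LieModule.lowerCentralSeries_zero]
    exact LieSubmodule.mem_top x
  | succ s ih =>
    have e : 2 ^ (s + 1) - 1 = (2 ^ s - 1) + (2 ^ s - 1) + 1 := by
      have : 0 < 2 ^ s := by positivity
      rw [pow_succ]
      omega
    rw [e, LieAlgebra.derivedSeries_def, LieAlgebra.derivedSeriesOfIdeal_succ,
      LieSubmodule.lie_le_iff]
    intro x hx y hy
    exact lcs_lie L _ _ x (ih hx) y (ih hy)

end Pool.Agent.KArc
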