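import Pool.Agent.KArc.Num
import Pool.Agent.KArc.Lie

/-!
# Graded Lie rings whose support is an arithmetic progression of length at most two thirds
-/

namespace Pool.Agent.KArc

private theorem final_len {n m : ℕ} (hn : Odd n) (hm : 3 * m ≤ 2 * n + 2) :
    NoLen (arc n (n - m)) (3 * 2 ^ (m + (m - (n + 1) / 2) * (m - (n + 1) / 2 + 1) / 2)) := by
  obtain ⟨k, hk⟩ := hn
  have : NeZero n := ⟨by omega⟩
  rcases Nat.eq_zero_or_pos m with h0 | h0
  · intro F v w h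
    exfalso
    have h1 := F.mem h
    have h2 : n - m ≤ v.val := h1
    have h3 := ZMod.val_lt v
    omega
  · refine (arc_len (n := n) (d := n - m) ⟨k, hk⟩ (by omega) (by omega)).mono subset_rfl ?_
    have e1 : (n - 1) / 2 - (n - m) = m - (n + 1) / 2 := by omega
    rw [e1]
    apply Nat.mul_le_mul_left
    apply Nat.pow_le_pow_right (by norm_num)
    omega

theorem final {n : ℕ} (hn : Odd n) {m : ℕ} (hm : 3 * m ≤ 2 * n + 2) (u : (ZMod n)ˣ) (a : ZMod n)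
    {L : Type*} [LieRing L] {𝓛 : ZMod n → AddSubgroup L} (htop : ⨆ i, 𝓛 i = ⊤)
    (hgr : ∀ i j, ∀ x ∈ 𝓛 i, ∀ y ∈ 𝓛 j, ⁅x, y⁆ ∈ 𝓛 (i + j)) (h0 : 𝓛 0 = ⊥)
    (hoff : ∀ i, (∀ j < m, i ≠ (u : ZMod n) * (a + ((j : ℕ) : ZMod n))) → 𝓛 i = ⊥) :
    LieModule.lowerCentralSeries ℤ L L (3 * 2 ^ (m +
      (m - (n + 1) / 2) * (m - (n + 1) / 2 + 1) / 2)) = ⊥ ∧
    LieAlgebra.derivedSeries ℤ L (m + 2 +
      (m - (n + 1) / 2) * (m - (n + 1) / 2 + 1) / 2) = ⊥ := by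
  have hlen := (final_len hn hm).affine u ((u : ZMod n) * (a + ((m : ℕ) : ZMod n)))
  obtain ⟨k, hk⟩ := hn
  have : NeZero n := ⟨by omega⟩
  have h1 := lie_class hlen htop hgr h0 (by
    intro i hi
    apply hoff
    intro j hj he
    apply hi
    refine ⟨((n - m + j : ℕ) : ZMod n), ?_, ?_⟩
    · change n - m ≤ ((n - m + j : ℕ) : ZMod n).val
      rw [ZMod.val_natCast, Nat.mod_eq_of_lt (by omega)]
      omega
    · rw [he, Nat.cast_add, Nat.cast_sub (by omega), ZMod.natCast_self]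
      ring)
  refine ⟨h1, ?_⟩
  have h2 := derived_le L (m + 2 + (m - (n + 1) / 2) * (m - (n + 1) / 2 + 1) / 2)
  rw [eq_bot_iff, ← h1]
  refine h2.trans (LieModule.antitone_lowerCentralSeries ℤ L L ?_)
  generalize (m - (n + 1) / 2) * (m - (n + 1) / 2 + 1) / 2 = B
  have e : m + 2 + B = (m + B) + 2 := by ring
  have h3 : 0 < 2 ^ (m + B) := by positivity
  rw [e, pow_add 2 (m + B) 2]
  generalize 2 ^ (m + B) = q at h3 ⊢
  omega

end Pool.Agent.KArc
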