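import Pool.Agent.KArc.Defs

/-!
# Pairs: words of two-letter loops

`flip`: rule R for the two letters `x, -x`: the merge is the letter `0`, impossible, so `-x, x` is alive.
`dup_dead`, `del_left`, `del_right`: forced merges at the junction of two neighbouring two-letter loops.
`pairs_bound`: the smallest letter occurs at most once.
-/

namespace Pool.Agent.KArc

section

variable {n : ℕ} {T : Set (ZMod n)} {v : ZMod n} (F : Fam n T)

private theorem vert {A B : List (ZMod n)} (h : F.X v (A ++ B)) : v + A.sum ∈ T :=
  F.mem (F.suf h)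

theorem flip {A B : List (ZMod n)} {x : ZMod n} (h : F.X v (A ++ x :: -x :: B)) :
    F.X v (A ++ -x :: x :: B) := by
  rcases F.R h with h1 | h1
  · exact h1
  · exfalso
    have h2 := F.nz h1
    apply h2
    simp

theorem dup_dead {A B : List (ZMod n)} {x : ZMod n} (hA : A.sum = 0)
    (hx : v + (x + x) ∉ T) : ¬ F.X v (A ++ x :: -x :: x :: -x :: B) := by
  intro h
  have h0 : F.X v ((A ++ [x]) ++ -x :: x :: (-x :: B)) := by simpa using h
  rcases F.R h0 with h1 | h1
  · apply hx
    have h2 : F.X v ((A ++ [x, x]) ++ (-x :: -x :: B)) := by simpa using h1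
    have h3 := vert F h2
    simpa [hA] using h3
  · have h2 := F.nz h1
    apply h2
    simp

theorem del_left {A B : List (ZMod n)} {a b : ZMod n} (hA : A.sum = 0)
    (h1 : v + (a + b) ∉ T) (h2 : v + (b - a) ∉ T) (h : F.X v (A ++ a :: -a :: b :: -b :: B)) :
    F.X v (A ++ b :: -b :: B) := by
  have h0 : F.X v ((A ++ [a]) ++ -a :: b :: (-b :: B)) := by simpa using h
  rcases F.R h0 with h3 | h3
  · exfalso
    apply h1
    have h4 : F.X v ((A ++ [a, b]) ++ (-a :: -b :: B)) := by simpa using h3
    simpa [hA] using vert F h4
  · have h4 : F.X v (A ++ a :: (-a + b) :: (-b :: B)) := by simpa using h3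
    rcases F.R h4 with h5 | h5
    · exfalso
      apply h2
      have h6 : F.X v ((A ++ [-a + b]) ++ (a :: -b :: B)) := by simpa using h5
      have h7 := vert F h6
      rw [List.sum_append, hA, List.sum_singleton, zero_add] at h7
      rwa [sub_eq_neg_add]
    · have e : a + (-a + b) = b := by abel
      rwa [e] at h5

theorem del_right {A B : List (ZMod n)} {a b : ZMod n} (hA : A.sum = 0)
    (h1 : v + (a + b) ∉ T) (h2 : v + (a - b) ∉ T) (h : F.X v (A ++ a :: -a :: b :: -b :: B)) :
    F.X v (A ++ a :: -a :: B) := by
  have h0 : F.X v ((A ++ [a]) ++ -a :: b :: (-b :: B)) := by simpa using h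
  rcases F.R h0 with h3 | h3
  · exfalso
    apply h1
    have h4 : F.X v ((A ++ [a, b]) ++ (-a :: -b :: B)) := by simpa using h3
    simpa [hA] using vert F h4
  · rcases F.R h3 with h5 | h5
    · exfalso
      apply h2
      have h6 : F.X v ((A ++ [a, -b]) ++ ((-a + b) :: B)) := by simpa using h5
      have h7 := vert F h6
      simpa [hA, sub_eq_add_neg] using h7
    · have e : -a + b + -b = -a := by abel
      rw [e] at h5
      simpa using h5

end

/-- A factor closed language in natural numbers without repetitions, in which the larger of two neighbours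
can be deleted. -/
theorem pairs_bound {P : List ℕ → Prop} (hpre : ∀ u w, P (u ++ w) → P u)
    (hsuf : ∀ u w, P (u ++ w) → P w) (hdup : ∀ x, ¬ P [x, x])
    (hdelr : ∀ x y w, x < y → P (x :: y :: w) → P (x :: w))
    (hdell : ∀ x y w, x < y → P (w ++ [y, x]) → P (w ++ [x])) (b lo : ℕ) (xs : List ℕ)
    (hP : P xs) (hxs : ∀ x ∈ xs, lo < x ∧ x ≤ lo + b) : xs.length < 2 ^ b := by
  have hright : ∀ (x : ℕ) (r : List ℕ), (∀ z ∈ r, x ≤ z) → P (x :: r) → ∀ z ∈ r, x < z := by
    intro x r
    induction r with
    | nil => intro _ _ z hz; simp at hz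
    | cons y r ih =>
      intro hr hp z hz
      have hy : x ≤ y := hr y (by simp)
      have hne : x ≠ y := by
        rintro rfl
        exact hdup x (hpre [x, x] r (by simpa using hp))
      have hlt : x < y := lt_of_le_of_ne hy hne
      rcases List.mem_cons.1 hz with rfl | hz
      · exact hlt
      · exact ih (fun z hz => hr z (by simp [hz])) (hdelr x y r hlt hp) z hz
  have hleft : ∀ (x : ℕ) (l : List ℕ), (∀ z ∈ l, x ≤ z) → P (l ++ [x]) → ∀ z ∈ l, x < z := by
    intro x l
    induction l using List.reverseRecOn with
    | nil => intro _ _ z hz; simp at hz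
    | append_singleton l y ih =>
      intro hl hp z hz
      have hy : x ≤ y := hl y (by simp)
      have hne : x ≠ y := by
        rintro rfl
        exact hdup x (hsuf l [x, x] (by simpa using hp))
      have hlt : x < y := lt_of_le_of_ne hy hne
      rcases List.mem_append.1 hz with hz | hz
      · exact ih (fun z hz => hl z (by simp [hz])) (hdell x y l hlt (by simpa using hp)) z hz
      · rw [List.mem_singleton] at hz
        rwa [hz]
  induction b generalizing lo xs with
  | zero =>
    cases xs with
    | nil => simp
    | cons x xs =>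
      have := hxs x (by simp)
      omega
  | succ b ih =>
    by_cases hm : lo + 1 ∈ xs
    · obtain ⟨l, r, rfl⟩ := List.append_of_mem hm
      have hr1 : P ((lo + 1) :: r) := hsuf l _ hP
      have hl1 : P (l ++ [lo + 1]) := hpre (l ++ [lo + 1]) r (by simpa using hP)
      have hr := hright (lo + 1) r (fun z hz => (hxs z (by simp [hz])).1) hr1
      have hl := hleft (lo + 1) l (fun z hz => (hxs z (by simp [hz])).1) hl1
      have hr2 := ih (lo + 1) r (hsuf [lo + 1] r hr1)
        (fun z hz => ⟨hr z hz, by have := (hxs z (by simp [hz])).2; omega⟩)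
      have hl2 := ih (lo + 1) l (hpre l [lo + 1] hl1)
        (fun z hz => ⟨hl z hz, by have := (hxs z (by simp [hz])).2; omega⟩)
      rw [List.length_append, List.length_cons, pow_succ]
      omega
    · have h1 := ih (lo + 1) xs hP (fun z hz => by
        have h2 := hxs z hz
        have h3 : z ≠ lo + 1 := fun h => hm (h ▸ hz)
        omega)
      rw [pow_succ]
      omega

end Pool.Agent.KArc
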