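import Pool.Agent.KArc.Two
import Pool.Agent.KArc.Pairs

/-!
# Loops: the number of loops at the end of an arc

`n` odd, `n ≤ 3 d + 2`, `d < n`, `v = d`, `T = arc n d`. For `x : ZMod n` with `x ≠ 0`: `v + x ∈ T ↔ x.val + d < n`,
`v - x ∈ T ↔ d < x.val`. So all closed walks at `d` with the minimal number of letters are products of two-letter
loops, and `pairs_bound` applies.
-/

namespace Pool.Agent.KArc

private theorem loops_add {n d : ℕ} (hdn : d < n) (x : ZMod n) :
    (d : ZMod n) + x ∈ arc n d ↔ x.val + d < n := by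
  have : NeZero n := ⟨by omega⟩
  have hx := ZMod.val_lt x
  have hd : (d : ZMod n).val = d := by rw [ZMod.val_natCast, Nat.mod_eq_of_lt hdn]
  change d ≤ ((d : ZMod n) + x).val ↔ _
  rw [ZMod.val_add, hd]
  by_cases h : d + x.val < n
  · rw [Nat.mod_eq_of_lt h]
    omega
  · have h1 : (d + x.val) % n = d + x.val - n := by
      rw [Nat.mod_eq_sub_mod (by omega), Nat.mod_eq_of_lt (by omega)]
    rw [h1]
    omega

private theorem loops_sub {n d : ℕ} (hdn : d < n) {x : ZMod n} (hx0 : x ≠ 0) :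
    (d : ZMod n) - x ∈ arc n d ↔ d < x.val := by
  have : NeZero n := ⟨by omega⟩
  have hx := ZMod.val_lt x
  have hx1 : x.val ≠ 0 := fun h => hx0 ((ZMod.val_eq_zero x).1 h)
  rw [sub_eq_add_neg, loops_add hdn, ZMod.neg_val, if_neg hx0]
  omega

private theorem loops_h3 {n d : ℕ} (hd : n ≤ 3 * d + 2) (hdn : d < n) :
    ∀ x y : ZMod n, x ≠ 0 → y ≠ 0 → x + y ≠ 0 → (d : ZMod n) + x ∈ arc n d →
      (d : ZMod n) - x ∈ arc n d → (d : ZMod n) + y ∈ arc n d → (d : ZMod n) - y ∈ arc n d →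
      (d : ZMod n) + (x + y) ∈ arc n d → (d : ZMod n) - (x + y) ∈ arc n d → False := by
  intro x y hx hy hxy h1 h2 h3 h4 h5 h6
  have : NeZero n := ⟨by omega⟩
  rw [loops_add hdn] at h1 h3 h5
  rw [loops_sub hdn hx] at h2
  rw [loops_sub hdn hy] at h4
  rw [loops_sub hdn hxy] at h6
  rw [ZMod.val_add] at h5 h6
  have ha := ZMod.val_lt x
  have hb := ZMod.val_lt y
  by_cases h : x.val + y.val < n
  · rw [Nat.mod_eq_of_lt h] at h5 h6
    omega
  · have h7 : (x.val + y.val) % n = x.val + y.val - n := by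
      rw [Nat.mod_eq_sub_mod (by omega), Nat.mod_eq_of_lt (by omega)]
    rw [h7] at h5 h6
    omega

/-- The two-letter loop. -/
private def lp (n : ℕ) (m : ℕ) : List (ZMod n) := [(m : ZMod n), -(m : ZMod n)]

private theorem lp_sum (n : ℕ) (ms : List ℕ) : (ms.flatMap (lp n)).sum = 0 := by
  induction ms with
  | nil => rfl
  | cons m ms ih => simp [List.flatMap_cons, lp, ih]

private theorem loops_norm {n d : ℕ} (hn : Odd n) (hdn : d < n) (F : Fam n (arc n d)) :
    ∀ (xs A : List (ZMod n)), F.X (d : ZMod n) (A ++ xs.flatMap fun x => [x, -x]) →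
      (∀ x ∈ xs, x ≠ 0 ∧ (d : ZMod n) + x ∈ arc n d ∧ (d : ZMod n) - x ∈ arc n d) →
      ∃ ms : List ℕ, ms.length = xs.length ∧ (∀ m ∈ ms, d < m ∧ m ≤ (n - 1) / 2) ∧
        F.X (d : ZMod n) (A ++ ms.flatMap (lp n)) := by
  have : NeZero n := ⟨by omega⟩
  intro xs
  induction xs with
  | nil =>
    intro A h _
    exact ⟨[], rfl, by simp, by simpa using h⟩
  | cons x xs ih =>
    intro A h hx
    obtain ⟨hx0, hx1, hx2⟩ := hx x (by simp)
    rw [loops_add hdn] at hx1
    rw [loops_sub hdn hx0] at hx2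
    have hxs : ∀ y ∈ xs, y ≠ 0 ∧ (d : ZMod n) + y ∈ arc n d ∧ (d : ZMod n) - y ∈ arc n d :=
      fun y hy => hx y (by simp [hy])
    have h' : F.X (d : ZMod n) (A ++ x :: -x :: xs.flatMap fun x => [x, -x]) := by
      simpa [List.flatMap_cons] using h
    obtain ⟨k, hk⟩ := hn
    have key : ∃ m : ℕ, d < m ∧ m ≤ (n - 1) / 2 ∧
        F.X (d : ZMod n) ((A ++ lp n m) ++ xs.flatMap fun x => [x, -x]) := by
      by_cases hle : x.val ≤ (n - 1) / 2
      · refine ⟨x.val, hx2, hle, ?_⟩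
        have e : (x.val : ZMod n) = x := ZMod.natCast_zmod_val x
        simpa [lp, e] using h'
      · refine ⟨n - x.val, by omega, by omega, ?_⟩
        have e : ((n - x.val : ℕ) : ZMod n) = -x := by
          rw [Nat.cast_sub (ZMod.val_lt x).le, ZMod.natCast_self, ZMod.natCast_zmod_val, zero_sub]
        have h2 := flip F h'
        simpa [lp, e] using h2
    obtain ⟨m, hm1, hm2, hm3⟩ := key
    obtain ⟨ms, h1, h2, h3⟩ := ih (A ++ lp n m) hm3 hxs
    refine ⟨m :: ms, by simp [h1], ?_, ?_⟩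
    · intro m' hm'
      rcases List.mem_cons.1 hm' with rfl | hm'
      · exact ⟨hm1, hm2⟩
      · exact h2 m' hm'
    · simpa [List.flatMap_cons] using h3

theorem arc_loops {n d : ℕ} (hn : Odd n) (hd : n ≤ 3 * d + 2) (hdn : d < n) :
    NoLoops (arc n d) (d : ZMod n) (2 ^ ((n - 1) / 2 - d)) := by
  intro F Ls hlen hL h
  have : NeZero n := ⟨by omega⟩
  obtain ⟨xs, hxl, hxs, hX⟩ := two_loops F (loops_h3 hd hdn) hL h
  obtain ⟨ms, hml, hms, hM⟩ := loops_norm hn hdn F xs [] (by simpa using hX) hxs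
  rw [List.nil_append] at hM
  have hval : ∀ m : ℕ, m < n → ((m : ℕ) : ZMod n).val = m := fun m hm => by
    rw [ZMod.val_natCast, Nat.mod_eq_of_lt hm]
  have hout1 : ∀ x y : ℕ, d < x → x ≤ (n - 1) / 2 → d < y → y ≤ (n - 1) / 2 →
      (d : ZMod n) + ((x : ZMod n) + (y : ZMod n)) ∉ arc n d := by
    intro x y h1 h2 h3 h4 h5
    have e : ((x : ZMod n) + (y : ZMod n)) = ((x + y : ℕ) : ZMod n) := by push_cast; ring
    rw [e, loops_add hdn, hval _ (by omega)] at h5
    omega
  have hout2 : ∀ x y : ℕ, x < y → d < x → y ≤ (n - 1) / 2 →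
      (d : ZMod n) + ((x : ZMod n) - (y : ZMod n)) ∉ arc n d := by
    intro x y h1 h2 h3 h5
    have e : ((x : ZMod n) - (y : ZMod n)) = ((n - (y - x) : ℕ) : ZMod n) := by
      rw [Nat.cast_sub (by omega), Nat.cast_sub h1.le, ZMod.natCast_self]
      ring
    rw [e, loops_add hdn, hval _ (by omega)] at h5
    omega
  have hlt := pairs_bound
    (P := fun ms => F.X (d : ZMod n) (ms.flatMap (lp n)) ∧ ∀ m ∈ ms, d < m ∧ m ≤ (n - 1) / 2)
    (fun u w hP => ?_) (fun u w hP => ?_) (fun x hP => ?_) (fun x y w hxy hP => ?_)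
    (fun x y w hxy hP => ?_) ((n - 1) / 2 - d) d ms ⟨hM, hms⟩
    (fun m hm => by have := hms m hm; omega)
  · rw [hml, hxl, hlen] at hlt
    exact lt_irrefl _ hlt
  · refine ⟨?_, fun m hm => hP.2 m (by simp [hm])⟩
    have h1 := hP.1
    rw [List.flatMap_append] at h1
    exact F.pre h1
  · refine ⟨?_, fun m hm => hP.2 m (by simp [hm])⟩
    have h1 := hP.1
    rw [List.flatMap_append] at h1
    have h2 := F.suf h1
    rw [lp_sum, add_zero] at h2
    exact h2
  · obtain ⟨h1, h2⟩ := hP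
    obtain ⟨h3, h4⟩ := h2 x (by simp)
    exact dup_dead F (A := []) (B := []) (x := (x : ZMod n)) rfl (hout1 x x h3 h4 h3 h4)
      (by simpa [lp] using h1)
  · obtain ⟨h1, h2⟩ := hP
    obtain ⟨h3, h4⟩ := h2 x (by simp)
    obtain ⟨h5, h6⟩ := h2 y (by simp)
    refine ⟨?_, fun m hm => h2 m ?_⟩
    · have h7 := del_right F (A := []) (B := w.flatMap (lp n)) (a := (x : ZMod n))
        (b := (y : ZMod n)) rfl (hout1 x y h3 h4 h5 h6) (hout2 x y hxy h3 h6)
        (by simpa [lp, List.flatMap_cons] using h1)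
      simpa [lp, List.flatMap_cons] using h7
    · rcases List.mem_cons.1 hm with rfl | hm
      · simp
      · simp [hm]
  · obtain ⟨h1, h2⟩ := hP
    obtain ⟨h3, h4⟩ := h2 x (by simp)
    obtain ⟨h5, h6⟩ := h2 y (by simp)
    refine ⟨?_, fun m hm => h2 m ?_⟩
    · have h7 := del_left F (A := w.flatMap (lp n)) (B := []) (a := (y : ZMod n))
        (b := (x : ZMod n)) (lp_sum n w) (hout1 y x h5 h6 h3 h4) (hout2 x y hxy h3 h6)
        (by simpa [lp, List.flatMap_cons, List.flatMap_append] using h1)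
      simpa [lp, List.flatMap_cons, List.flatMap_append] using h7
    · rcases List.mem_append.1 hm with hm | hm
      · simp [hm]
      · simp only [List.mem_singleton] at hm
        simp [hm]

end Pool.Agent.KArc
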