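import Pool.Agent.KArc.Rec
import Pool.Agent.KArc.Loops

/-!
# Num (size 3): the length of the walks on an arc

`mono`: a family on `T'` is a family on `T ⊇ T'`. `affine`: for a family `F` on `{t | ∃ s ∈ T, t = u * s + c}` let `F'.X v w := F.X (u * v + c) (w.map (u * ·))`, a family on `T` (`u` a unit: `u * v + c = u * s + c → v = s`;
`u * x = 0 → x = 0`).
`arc_len`: induction on `n - 1 - d`. For `d = n - 1`: `arc n d` has only the element `-1 = (n - 1 : ℕ)`, so a walk with a (nonzero) step is impossible: length `< 1 ≤ 3`. Step: `arc n d \ {(d : ZMod n)} = arc n (d + 1)`,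
`rec_bound` with `k` for `d + 1`, `j = 2 ^ ((n - 1) / 2 - d)`. Prove the stronger statement: there is `k` with `NoLen (arc n d) k` and `k + 2 ≤ 3 * 2 ^ ((n - 1 - d) + b * (b + 1) / 2)`, `b = (n - 1) / 2 - d`:
`(2 ^ b + 1) * (k + 1) + 2 ≤ (2 ^ b + 1) * (k + 2) ≤ 2 ^ (b + 1) * (k + 2)` and `b * (b + 1) / 2 = b + (b - 1) * b / 2` if `b ≥ 1`, and `b = 0`: nothing.
-/

namespace Pool.Agent.KArc

theorem NoLen.mono {n : ℕ} {T T' : Set (ZMod n)} {k k' : ℕ} (h : NoLen T k) (hT : T' ⊆ T)
    (hk : k ≤ k') : NoLen T' k' := by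
  intro F v w hw
  let G : Fam n T :=
    { X := F.X
      mem := fun h => hT (F.mem h)
      nz := F.nz
      pre := F.pre
      suf := F.suf
      R := F.R }
  exact lt_of_lt_of_le (h G v w hw) hk

theorem NoLen.affine {n : ℕ} {T : Set (ZMod n)} {k : ℕ} (h : NoLen T k) (u : (ZMod n)ˣ)
    (c : ZMod n) : NoLen {t | ∃ s ∈ T, t = (u : ZMod n) * s + c} k := by
  intro F v w hw
  have hsum : ∀ a : List (ZMod n),
      (a.map (fun x => (u : ZMod n) * x)).sum = (u : ZMod n) * a.sum := by
    intro a
    induction a with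
    | nil => simp
    | cons x a ih => rw [List.map_cons, List.sum_cons, List.sum_cons, ih, mul_add]
  let G : Fam n T :=
    { X := fun v w => F.X ((u : ZMod n) * v + c) (w.map (fun x => (u : ZMod n) * x))
      mem := by
        intro v w h
        obtain ⟨s, hs, he⟩ := F.mem h
        have h2 : v = s := (Units.mul_right_inj u).1 (add_right_cancel he)
        exact h2 ▸ hs
      nz := by
        intro v w h h0
        exact F.nz h (List.mem_map.2 ⟨0, h0, mul_zero _⟩)
      pre := by
        intro v a b h
        rw [List.map_append] at h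
        exact F.pre h
      suf := by
        intro v a b h
        rw [List.map_append] at h
        have h2 := F.suf h
        rw [hsum] at h2
        have e : (u : ZMod n) * (v + a.sum) + c = (u : ZMod n) * v + c + (u : ZMod n) * a.sum := by
          ring
        rw [e]
        exact h2
      R := by
        intro v a x y b h
        rw [List.map_append, List.map_cons, List.map_cons] at h
        rcases F.R h with h2 | h2
        · left
          rw [List.map_append, List.map_cons, List.map_cons]
          exact h2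
        · right
          rw [List.map_append, List.map_cons, mul_add]
          exact h2 }
  obtain ⟨s, hs, he⟩ := F.mem hw
  have hG : G.X s (w.map (fun x => ((u⁻¹ : (ZMod n)ˣ) : ZMod n) * x)) := by
    change F.X ((u : ZMod n) * s + c)
      ((w.map (fun x => ((u⁻¹ : (ZMod n)ˣ) : ZMod n) * x)).map (fun x => (u : ZMod n) * x))
    rw [← he, List.map_map]
    have e : w.map ((fun x => (u : ZMod n) * x) ∘
        (fun x => ((u⁻¹ : (ZMod n)ˣ) : ZMod n) * x)) = w := by
      conv_rhs => rw [← List.map_id w]
      apply List.map_congr_left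
      intro x _
      simp only [Function.comp, id, Units.mul_inv_cancel_left]
    rw [e]
    exact hw
  have h3 := h G s _ hG
  rwa [List.length_map] at h3

private theorem arc_succ {n d : ℕ} (hdn : d < n) :
    arc n d \ {(d : ZMod n)} = arc n (d + 1) := by
  have : NeZero n := ⟨by omega⟩
  ext t
  simp only [arc, Set.mem_sdiff, Set.mem_ofPred_eq, Set.mem_singleton_iff]
  constructor
  · rintro ⟨h1, h2⟩
    rcases Nat.lt_or_ge d t.val with h | h
    · exact h
    · exfalso
      apply h2
      have h3 : t.val = d := le_antisymm h h1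
      rw [← h3, ZMod.natCast_zmod_val]
  · intro h
    refine ⟨by omega, ?_⟩
    intro h2
    rw [h2, ZMod.val_natCast_of_lt hdn] at h
    omega

private theorem arc_last {n : ℕ} (hn : 0 < n) : NoLen (arc n (n - 1)) 1 := by
  have : NeZero n := ⟨by omega⟩
  intro F v w hw
  cases w with
  | nil => simp
  | cons c w =>
    exfalso
    have h1 : n - 1 ≤ v.val := F.mem hw
    have h2 : n - 1 ≤ (v + c).val := by
      have h := F.suf (u := [c]) (w := w) hw
      have h3 := F.mem h
      rw [List.sum_singleton] at h3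
      exact h3
    have h4 : v.val < n := ZMod.val_lt v
    have h5 : (v + c).val < n := ZMod.val_lt (v + c)
    have h6 : (v + c).val = v.val := by omega
    have h7 : v + c = v := ZMod.val_injective n h6
    have h8 : c = 0 := by
      have h9 : v + c = v + 0 := by rw [h7, add_zero]
      exact add_left_cancel h9
    apply F.nz hw
    rw [h8]
    exact List.mem_cons_self

private theorem arc_len_aux {n : ℕ} (hn : Odd n) : ∀ e d : ℕ, n - 1 - d = e → n ≤ 3 * d + 2 →
    d < n → ∃ k, NoLen (arc n d) k ∧ k + 2 ≤ 3 * 2 ^ ((n - 1 - d) +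
      ((n - 1) / 2 - d) * ((n - 1) / 2 - d + 1) / 2) := by
  intro e
  induction e with
  | zero =>
    intro d he hd hdn
    have h1 : d = n - 1 := by omega
    subst h1
    refine ⟨1, arc_last (by omega), ?_⟩
    have h2 : (n - 1) / 2 - (n - 1) = 0 := by omega
    rw [h2]
    simp
  | succ e ih =>
    intro d he hd hdn
    obtain ⟨k, hk, hk2⟩ := ih (d + 1) (by omega) (by omega) (by omega)
    have h1 : NoLen (arc n d \ {(d : ZMod n)}) k := by
      rw [arc_succ hdn]
      exact hk
    refine ⟨(2 ^ ((n - 1) / 2 - d) + 1) * (k + 1), rec_bound h1 (arc_loops hn hd hdn), ?_⟩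
    have e1 : n - 1 - (d + 1) = e := by omega
    rw [he]
    rw [e1] at hk2
    have e2 : (n - 1) / 2 - (d + 1) = (n - 1) / 2 - d - 1 := by omega
    rw [e2] at hk2
    generalize (n - 1) / 2 - d = b at hk2 ⊢
    have hpow : 1 ≤ 2 ^ b := Nat.one_le_two_pow
    have h3 : (2 ^ b + 1) * (k + 1) + 2 ≤ 2 ^ (b + 1) * (k + 2) := by
      have h4 : 2 ^ (b + 1) = 2 ^ b * 2 := pow_succ 2 b
      rw [h4]
      nlinarith [Nat.zero_le k, Nat.mul_le_mul hpow (Nat.zero_le (k + 1))]
    have h5 : 2 ^ (b + 1) * (k + 2) ≤ 2 ^ (b + 1) * (3 * 2 ^ (e + (b - 1) * (b - 1 + 1) / 2)) :=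
      Nat.mul_le_mul_left _ hk2
    refine le_trans h3 (le_trans h5 (le_of_eq ?_))
    have h6 : (b + 1) + (e + (b - 1) * (b - 1 + 1) / 2) = (e + 1) + b * (b + 1) / 2 := by
      cases b with
      | zero => simp; omega
      | succ b =>
        have h7 : b + 1 - 1 = b := by omega
        rw [h7]
        have h8 : (b + 1) * (b + 1 + 1) = b * (b + 1) + (b + 1) * 2 := by ring
        rw [h8, Nat.add_mul_div_right _ _ (by norm_num)]
        omega
    rw [← h6, pow_add 2 (b + 1)]
    ring

theorem arc_len {n d : ℕ} (hn : Odd n) (hd : n ≤ 3 * d + 2) (hdn : d < n) :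
    NoLen (arc n d) (3 * 2 ^ ((n - 1 - d) +
      ((n - 1) / 2 - d) * ((n - 1) / 2 - d + 1) / 2)) := by
  obtain ⟨k, hk, hk2⟩ := arc_len_aux hn (n - 1 - d) d rfl hd hdn
  exact hk.mono (le_refl _) (by omega)

end Pool.Agent.KArc
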