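import Pool.Agent.KArc.Defs

/-!
# Rec (size 4): removal of a vertex

`block`. By contradiction: suppose there are no such `u, u'`. Let `Y : Fam n (T \ {v})` be the family with
`Y.X t z := ∃ x y, x ≠ [] ∧ t = s + a.sum + x.sum ∧ F.X s (a ++ (x ++ z ++ y) ++ b)`.
`rec_bound`. Let `F.X s w` and `w.length ≥ (j + 1) * (k + 1)`. By induction on `i ≤ j` there are
`a, Ls, r` with `F.X s (a ++ Ls.flatten ++ r)`, `s + a.sum = v`, `Ls.length = i`, all `l ∈ Ls`
nonempty of sum `0`, `r.length ≥ (j - i) * (k + 1)`.
-/

namespace Pool.Agent.KArc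

theorem block {n : ℕ} {T : Set (ZMod n)} {v : ZMod n} {k : ℕ} (hk : NoLen (T \ {v}) k)
    (F : Fam n T) {s : ZMod n} {a w b : List (ZMod n)} (h : F.X s (a ++ w ++ b))
    (hw : w.length = k + 1) :
    ∃ u u' : List (ZMod n), u ≠ [] ∧ F.X s (a ++ (u ++ u') ++ b) ∧ s + a.sum + u.sum = v := by
  by_contra hcon
  let Y : Fam n (T \ {v}) :=
    { X := fun t z => ∃ x y : List (ZMod n), x ≠ [] ∧ t = s + a.sum + x.sum ∧
        F.X s (a ++ (x ++ z ++ y) ++ b)
      mem := by
        rintro t z ⟨x, y, hx, rfl, hX⟩
        refine ⟨?_, ?_⟩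
        · have h1 : F.X s ((a ++ x) ++ (z ++ y ++ b)) := by simpa using hX
          have h2 := F.mem (F.suf h1)
          rwa [List.sum_append, ← add_assoc] at h2
        · intro hv
          refine hcon ⟨x, z ++ y, hx, ?_, hv⟩
          simpa using hX
      nz := by
        rintro t z ⟨x, y, hx, rfl, hX⟩ h0
        refine F.nz hX ?_
        simp [h0]
      pre := by
        rintro t u w ⟨x, y, hx, rfl, hX⟩
        exact ⟨x, w ++ y, hx, rfl, by simpa using hX⟩
      suf := by
        rintro t u w ⟨x, y, hx, rfl, hX⟩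
        refine ⟨x ++ u, y, by simp [hx], ?_, by simpa using hX⟩
        rw [List.sum_append]
        ring
      R := by
        rintro t u c c' w ⟨x, y, hx, rfl, hX⟩
        have h1 : F.X s ((a ++ x ++ u) ++ c :: c' :: (w ++ y ++ b)) := by simpa using hX
        rcases F.R h1 with h2 | h2
        · exact Or.inl ⟨x, y, hx, rfl, by simpa using h2⟩
        · exact Or.inr ⟨x, y, hx, rfl, by simpa using h2⟩ }
  obtain ⟨c, w', rfl⟩ : ∃ c w', w = c :: w' := by
    cases w with
    | nil => simp at hw
    | cons c w' => exact ⟨c, w', rfl⟩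
  have h1 : Y.X (s + a.sum + c) w' := ⟨[c], [], by simp, by simp, by simpa using h⟩
  have h2 := hk Y _ _ h1
  simp at hw
  omega

theorem rec_bound {n : ℕ} {T : Set (ZMod n)} {v : ZMod n} {k j : ℕ} (hk : NoLen (T \ {v}) k)
    (hj : NoLoops T v j) : NoLen T ((j + 1) * (k + 1)) := by
  intro F s w hX
  by_contra hlt
  push Not at hlt
  have key : ∀ i : ℕ, i ≤ j → ∃ (a : List (ZMod n)) (Ls : List (List (ZMod n)))
      (r : List (ZMod n)), F.X s (a ++ Ls.flatten ++ r) ∧ s + a.sum = v ∧ Ls.length = i ∧
        (∀ l ∈ Ls, l ≠ [] ∧ l.sum = 0) ∧ (j - i) * (k + 1) ≤ r.length := by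
    intro i
    induction i with
    | zero =>
      intro _
      have hmul : (j + 1) * (k + 1) = j * (k + 1) + (k + 1) := by ring
      have h1 : F.X s ([] ++ w.take (k + 1) ++ w.drop (k + 1)) := by
        rw [List.nil_append, List.take_append_drop]; exact hX
      obtain ⟨u, u', -, h2, h3⟩ := block hk F h1 (by rw [List.length_take]; omega)
      refine ⟨u, [], u' ++ w.drop (k + 1), by simpa using h2, by simpa using h3, rfl, by simp, ?_⟩
      rw [List.length_append, List.length_drop]
      simp only [Nat.sub_zero]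
      omega
    | succ i ih =>
      intro hi
      obtain ⟨a, Ls, r, h1, h2, h3, h4, h5⟩ := ih (by omega)
      have hmul : (j - i) * (k + 1) = (j - (i + 1)) * (k + 1) + (k + 1) := by
        have : j - i = (j - (i + 1)) + 1 := by omega
        rw [this]; ring
      have h6 : F.X s ((a ++ Ls.flatten) ++ r.take (k + 1) ++ r.drop (k + 1)) := by
        rw [List.append_assoc, List.take_append_drop]; exact h1
      obtain ⟨u, u', hu, h7, h8⟩ := block hk F h6 (by rw [List.length_take]; omega)
      have hsum : Ls.flatten.sum = 0 := by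
        have : ∀ Ms : List (List (ZMod n)), (∀ l ∈ Ms, l.sum = 0) → Ms.flatten.sum = 0 := by
          intro Ms
          induction Ms with
          | nil => intro _; rfl
          | cons m Ms ih =>
            intro h
            rw [List.flatten_cons, List.sum_append, h m (by simp),
              ih fun l hl => h l (by simp [hl]), add_zero]
        exact this Ls fun l hl => (h4 l hl).2
      have hu0 : u.sum = 0 := by
        rw [List.sum_append, hsum, add_zero, h2] at h8
        simpa using h8
      refine ⟨a, Ls ++ [u], u' ++ r.drop (k + 1), ?_, h2, by simp [h3], ?_, ?_⟩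
      · simpa using h7
      · intro l hl
        rcases List.mem_append.1 hl with hl | hl
        · exact h4 l hl
        · rw [List.mem_singleton.1 hl]
          exact ⟨hu, hu0⟩
      · rw [List.length_append, List.length_drop]
        omega
  obtain ⟨a, Ls, r, h1, h2, h3, h4, -⟩ := key j le_rfl
  have h5 : F.X (s + a.sum) (Ls.flatten ++ r) := F.suf (by simpa using h1)
  rw [h2] at h5
  exact hj F Ls h3 h4 (F.pre h5)

end Pool.Agent.KArc
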