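import Pool.Agent.KArc.Defs

/-!
# Two (size 4): words with many loops and few letters

`perm_alive`: `List.Perm` is generated by adjacent transpositions; use the stronger statement for all prefixes: prove by induction on `l.Perm l'` that for all `a, b`, if every
merge is impossible ... The simplest way: prove `two_loops` as follows. Among all `Ls` with `Ls.length = N`, all `l ∈ Ls` nonempty of sum `0` and `F.X v Ls.flatten` choose one with
`Ls.flatten.length` minimal (`exists_minimal` below). Write `Ls = A ++ l :: B`. CLAIM: for every `l'` with `l'.Perm l`: `F.X v (A ++ l' :: B).flatten`. (Induction on adjacent transpositions: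
if `l' = p ++ c :: c' :: q` is a permutation of `l` with `F.X v (A ++ l' :: B).flatten` then by `F.R` the transposed list is alive, or the merged list
`p ++ (c + c') :: q` (nonempty, sum `0`, one letter fewer) is alive, which contradicts the minimality. Generate `Perm` by adjacent transpositions in context: induction on
`Perm l l'` with the statement `∀ p q, P (p ++ l ++ q) → P (p ++ l' ++ q)` where `P z := F.X v (A ++ z :: B).flatten` and all lists are permutations of `l`.)
Now `l` has no zero letter (`F.nz`) and sum `0`, so `l.length ≥ 2`. If `l = [x, y]` then `y = -x`; `v + x ∈ T` (`suf`, `mem`); `v - x ∈ T` by the order `[-x, x]`. If `l` has at least three letters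
`x :: y :: c :: r`: `v + x ∈ T`; the order `(y :: c :: r) ++ [x]` has the vertex `v - x`; so also for `y`; the order `x, y, ...` has the vertex `v + (x + y)`; the order
`(c :: r) ++ [x, y]` has the vertex `v - (x + y)`. If `x + y ≠ 0` this contradicts `h3`. If `x + y = 0`: `A ++ [x, y] :: (c :: r) :: B` has `N + 1` loops and the same flatten; drop its last
loop (`pre`): `N` loops with fewer letters, contradiction. So `Ls = xs.map (fun x => [x, -x])`.
-/

namespace Pool.Agent.KArc

/-- A family of loops with the minimal number of letters. -/
theorem exists_minimal {n : ℕ} {T : Set (ZMod n)} {v : ZMod n} (F : Fam n T)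
    {Ls : List (List (ZMod n))} (hL : ∀ l ∈ Ls, l ≠ [] ∧ l.sum = 0) (h : F.X v Ls.flatten) :
    ∃ Ms : List (List (ZMod n)), Ms.length = Ls.length ∧ (∀ l ∈ Ms, l ≠ [] ∧ l.sum = 0) ∧
      F.X v Ms.flatten ∧ ∀ Ns : List (List (ZMod n)), Ns.length = Ls.length →
        (∀ l ∈ Ns, l ≠ [] ∧ l.sum = 0) → F.X v Ns.flatten →
          Ms.flatten.length ≤ Ns.flatten.length := by
  classical
  have hex : ∃ k : ℕ, ∃ Ms : List (List (ZMod n)), Ms.length = Ls.length ∧
      (∀ l ∈ Ms, l ≠ [] ∧ l.sum = 0) ∧ F.X v Ms.flatten ∧ Ms.flatten.length = k :=
    ⟨_, Ls, rfl, hL, h, rfl⟩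
  obtain ⟨Ms, h1, h2, h3, h4⟩ := Nat.find_spec hex
  refine ⟨Ms, h1, h2, h3, fun Ns e1 e2 e3 => ?_⟩
  rw [h4]
  exact Nat.find_min' hex ⟨Ns, e1, e2, e3, rfl⟩

/-- Permutations are generated by adjacent transpositions, in a context. -/
private theorem perm_ctx {α : Type*} (P : List α → Prop) (l0 : List α)
    (step : ∀ (p q : List α) (c c' : α), (p ++ c :: c' :: q).Perm l0 → P (p ++ c :: c' :: q) →
      P (p ++ c' :: c :: q)) {l l' : List α} (h : l.Perm l') :
    ∀ p q : List α, (p ++ (l ++ q)).Perm l0 → P (p ++ (l ++ q)) → P (p ++ (l' ++ q)) := by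
  induction h with
  | nil => intro p q _ h; exact h
  | @cons x l1 l2 _ ih =>
    intro p q hp h
    have e1 : p ++ (x :: l1 ++ q) = (p ++ [x]) ++ (l1 ++ q) := by simp
    have e2 : p ++ (x :: l2 ++ q) = (p ++ [x]) ++ (l2 ++ q) := by simp
    rw [e1] at hp h
    rw [e2]
    exact ih _ _ hp h
  | swap x y l1 =>
    intro p q hp h
    exact step p (l1 ++ q) y x hp h
  | @trans l1 l2 l3 h12 _ ih1 ih2 =>
    intro p q hp h
    refine ih2 p q ?_ (ih1 p q hp h)
    exact ((List.Perm.append_left p (List.Perm.append_right q h12)).symm).trans hp

private theorem flatten_sum_zero {n : ℕ} (A : List (List (ZMod n)))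
    (hA : ∀ l ∈ A, l.sum = 0) : A.flatten.sum = 0 := by
  induction A with
  | nil => rfl
  | cons a A ih =>
    rw [List.flatten_cons, List.sum_append, hA a (by simp), ih fun l hl => hA l (by simp [hl]),
      add_zero]

private theorem exists_map {α β : Type*} (f : α → β) (Q : α → Prop) (Ms : List β)
    (h : ∀ l ∈ Ms, ∃ x, l = f x ∧ Q x) : ∃ xs : List α, Ms = xs.map f ∧ ∀ x ∈ xs, Q x := by
  induction Ms with
  | nil => exact ⟨[], rfl, by simp⟩
  | cons l Ms ih =>
    obtain ⟨xs, h1, h2⟩ := ih fun l hl => h l (by simp [hl])
    obtain ⟨x, hx, hQ⟩ := h l (by simp)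
    refine ⟨x :: xs, by rw [hx, h1]; rfl, ?_⟩
    intro y hy
    rcases List.mem_cons.1 hy with rfl | hy
    · exact hQ
    · exact h2 y hy

theorem two_loops {n : ℕ} {T : Set (ZMod n)} {v : ZMod n} (F : Fam n T)
    (h3 : ∀ x y : ZMod n, x ≠ 0 → y ≠ 0 → x + y ≠ 0 → v + x ∈ T → v - x ∈ T → v + y ∈ T →
      v - y ∈ T → v + (x + y) ∈ T → v - (x + y) ∈ T → False)
    {Ls : List (List (ZMod n))} (hL : ∀ l ∈ Ls, l ≠ [] ∧ l.sum = 0) (h : F.X v Ls.flatten) :
    ∃ xs : List (ZMod n), xs.length = Ls.length ∧ (∀ x ∈ xs, x ≠ 0 ∧ v + x ∈ T ∧ v - x ∈ T) ∧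
      F.X v (xs.flatMap fun x => [x, -x]) := by
  obtain ⟨Ms, hlen, hMs, hX, hmin⟩ := exists_minimal F hL h
  have key : ∀ l ∈ Ms, ∃ x : ZMod n, l = [x, -x] ∧ (x ≠ 0 ∧ v + x ∈ T ∧ v - x ∈ T) := by
    intro l hl
    obtain ⟨A, B, rfl⟩ := List.append_of_mem hl
    obtain ⟨hne, hsum⟩ := hMs l hl
    have hA0 : A.flatten.sum = 0 := flatten_sum_zero A fun m hm => (hMs m (by simp [hm])).2
    -- vertices
    have vtx : ∀ p q : List (ZMod n), F.X v (A ++ (p ++ q) :: B).flatten → v + p.sum ∈ T := by
      intro p q hpq
      have e : (A ++ (p ++ q) :: B).flatten = (A.flatten ++ p) ++ (q ++ B.flatten) := by simp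
      rw [e] at hpq
      have h1 := F.mem (F.suf hpq)
      rwa [List.sum_append, hA0, zero_add] at h1
    -- all permutations are alive
    have perm : ∀ l', l.Perm l' → F.X v (A ++ l' :: B).flatten := by
      intro l' hl'
      have h1 := perm_ctx (fun z => F.X v (A ++ z :: B).flatten) l ?_ hl' [] []
        (by simp) (by simpa using hX)
      · simpa using h1
      intro p q c c' hp hP
      change F.X v (A ++ (p ++ c :: c' :: q) :: B).flatten at hP
      have e : (A ++ (p ++ c :: c' :: q) :: B).flatten =
          (A.flatten ++ p) ++ c :: c' :: (q ++ B.flatten) := by simp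
      rw [e] at hP
      rcases F.R hP with h2 | h2
      · have e2 : (A ++ (p ++ c' :: c :: q) :: B).flatten =
          (A.flatten ++ p) ++ c' :: c :: (q ++ B.flatten) := by simp
        rw [e2]
        exact h2
      · exfalso
        have e2 : (A.flatten ++ p) ++ (c + c') :: (q ++ B.flatten) =
            (A ++ (p ++ (c + c') :: q) :: B).flatten := by simp
        rw [e2] at h2
        have h4 := hmin (A ++ (p ++ (c + c') :: q) :: B) (by
          rw [← hlen]; simp) ?_ h2
        · have h5 := hp.length_eq
          simp only [List.flatten_append, List.flatten_cons, List.length_append,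
            List.length_cons] at h4 h5
          omega
        · intro m hm
          rcases List.mem_append.1 hm with hm | hm
          · exact hMs m (by simp [hm])
          rcases List.mem_cons.1 hm with rfl | hm
          · refine ⟨by simp, ?_⟩
            have h5 := hp.sum_eq
            rw [hsum] at h5
            rw [← h5]
            simp only [List.sum_append, List.sum_cons]
            ring
          · exact hMs m (by simp [hm])
    have hX' : F.X v (A ++ l :: B).flatten := hX
    have hnz : ∀ x ∈ l, x ≠ 0 := by
      intro x hx h0
      subst h0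
      refine F.nz hX' ?_
      rw [List.mem_flatten]
      exact ⟨l, by simp, hx⟩
    match l, hne, hsum, hnz, perm, hX', hmin, hl with
    | [x], _, hsum, hnz, _, _, _, _ =>
      exact absurd (by simpa using hsum) (hnz x (by simp))
    | [x, y], _, hsum, hnz, perm, hX', _, _ =>
      have hy : y = -x := by
        have : x + y = 0 := by simpa using hsum
        exact (neg_eq_of_add_eq_zero_right this).symm
      subst hy
      refine ⟨x, rfl, hnz x (by simp), ?_, ?_⟩
      · have := vtx [x] [-x] (by simpa using hX')
        simpa using this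
      · have := vtx [-x] [x] (by simpa using perm [-x, x] (List.Perm.swap _ _ _))
        simpa [sub_eq_add_neg] using this
    | x :: y :: c :: r, _, hsum, hnz, perm, hX', hmin, _ =>
      exfalso
      have hx := hnz x (by simp)
      have hy := hnz y (by simp)
      have hs : x + (y + (c + r.sum)) = 0 := by simpa using hsum
      by_cases hxy : x + y = 0
      · set Ks : List (List (ZMod n)) := A ++ [x, y] :: (c :: r) :: B with hKs
        have hKne : Ks ≠ [] := by simp [hKs]
        have hKf : Ks.flatten = (A ++ (x :: y :: c :: r) :: B).flatten := by simp [hKs]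
        have hKall : ∀ m ∈ Ks, m ≠ [] ∧ m.sum = 0 := by
          intro m hm
          rw [hKs] at hm
          rcases List.mem_append.1 hm with hm | hm
          · exact hMs m (by simp [hm])
          rcases List.mem_cons.1 hm with rfl | hm
          · exact ⟨by simp, by simpa using hxy⟩
          rcases List.mem_cons.1 hm with rfl | hm
          · refine ⟨by simp, ?_⟩
            have : x + y + (c + r.sum) = 0 := by rw [← hs]; ring
            rw [hxy, zero_add] at this
            simpa using this
          · exact hMs m (by simp [hm])
        have hsplit := List.dropLast_append_getLast hKne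
        have hf2 : Ks.flatten = Ks.dropLast.flatten ++ Ks.getLast hKne := by
          conv_lhs => rw [← hsplit]
          simp
        have h4 := hmin Ks.dropLast (by
          rw [← hlen, List.length_dropLast, hKs]; simp) (by
          intro m hm
          exact hKall m (List.mem_of_mem_dropLast hm)) (by
          have : F.X v (Ks.dropLast.flatten ++ Ks.getLast hKne) := by
            rw [← hf2, hKf]; exact hX'
          exact F.pre this)
        have h5 : 0 < (Ks.getLast hKne).length :=
          List.length_pos_of_ne_nil (hKall _ (List.getLast_mem hKne)).1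
        have h6 : Ks.flatten.length = Ks.dropLast.flatten.length + (Ks.getLast hKne).length := by
          rw [hf2, List.length_append]
        rw [hKf] at h6
        omega
      · refine h3 x y hx hy hxy ?_ ?_ ?_ ?_ ?_ ?_
        · have := vtx [x] (y :: c :: r) (by simpa using hX')
          simpa using this
        · have h4 := vtx (y :: c :: r) [x] (perm _ (by
            exact (List.perm_append_singleton x (y :: c :: r)).symm))
          have e : (y :: c :: r).sum = -x := by
            rw [List.sum_cons, List.sum_cons]
            exact (neg_eq_of_add_eq_zero_right hs).symm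
          rwa [e, ← sub_eq_add_neg] at h4
        · have := vtx [y] (x :: c :: r) (perm _ (List.Perm.swap _ _ _))
          simpa using this
        · have h4 := vtx (x :: c :: r) [y] (perm _ (by
            refine (List.Perm.swap y x (c :: r)).trans ?_
            exact (List.perm_append_singleton y (x :: c :: r)).symm))
          have e : (x :: c :: r).sum = -y := by
            rw [List.sum_cons, List.sum_cons]
            have : y + (x + (c + r.sum)) = 0 := by rw [← hs]; ring
            exact (neg_eq_of_add_eq_zero_right this).symm
          rwa [e, ← sub_eq_add_neg] at h4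
        · have := vtx [x, y] (c :: r) (by simpa using hX')
          simpa using this
        · have h4 := vtx (c :: r) [x, y] (perm _ (by
            have := List.perm_append_comm (l₁ := [x, y]) (l₂ := c :: r)
            simpa using this))
          have e : (c :: r).sum = -(x + y) := by
            rw [List.sum_cons]
            have : (x + y) + (c + r.sum) = 0 := by rw [← hs]; ring
            exact (neg_eq_of_add_eq_zero_right this).symm
          rwa [e, ← sub_eq_add_neg] at h4
  obtain ⟨xs, h1, h2⟩ := exists_map (fun x : ZMod n => [x, -x])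
    (fun x => x ≠ 0 ∧ v + x ∈ T ∧ v - x ∈ T) Ms key
  refine ⟨xs, ?_, h2, ?_⟩
  · rw [← hlen, h1, List.length_map]
  · rw [List.flatMap_def, ← h1]
    exact hX

end Pool.Agent.KArc
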